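import Pool.Agent.MP_47b204_mp.H4D.Corner

set_option autoImplicit false

namespace Pool.Agent.Results.MP_47b204_mp.DiagonalCorner

open Pool.Agent.MP_47b204_mp.H45

theorem result (Q : ℝ) :
    ∃ q : ℝ, Q < q ∧ 0 < q ∧
      AnalyticOnNhd ℝ (fun t : ℝ => ((t, q) : ℝ × ℝ)) (Set.Ioi 0) ∧
      ∀ v : ℤ → Bool, (∀ k : ℕ, v k = fibSeq k) → (hull v).Nonempty ∧ ∀ ω ∈ hull v,
        ¬ DifferentiableAt ℝ (fun t => (dimH (spec t q ω)).toReal) 1 ∧
        ¬ AnalyticAt ℝ (fun t => (dimH (spec t q ω)).toReal) 1 := by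
  obtain ⟨q, h1, h2, h3⟩ := Pool.Agent.MP_47b204_mp.H4D.corner Q
  refine ⟨q, h1, h2, fun t _ => analyticAt_id.prod analyticAt_const,
    fun v hv => ⟨hull_nonempty v, fun ω hω => ?_⟩⟩
  have k : ¬ DifferentiableAt ℝ (fun t => (dimH (spec t q ω)).toReal) 1 := fun hd =>
    h3 v ω hv hω (DifferentiableAt.comp (0 : ℝ) (f := fun t : ℝ => 1 + t)
      (g := fun t => (dimH (spec t q ω)).toReal) (by simpa using hd) (by fun_prop))
  exact ⟨k, fun ha => k ha.differentiableAt⟩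

end Pool.Agent.Results.MP_47b204_mp.DiagonalCorner
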