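import Pool.Agent.MP_47b204_mp.H45.Schnol
import Pool.Agent.MP_47b204_mp.H45.Kink

set_option autoImplicit false

namespace Pool.Agent.Results.MP_47b204_mp.NotAnalytic

open Pool.Agent.MP_47b204_mp.H45 Filter Topology

theorem result :
    ∃ (α : ℝ → ℝ × ℝ) (a b t₀ : ℝ), t₀ ∈ Set.Ioo a b ∧ AnalyticOnNhd ℝ α (Set.Ioo a b) ∧
      (∀ t ∈ Set.Ioo a b, 1 < (α t).1) ∧
      ∀ v : ℤ → Bool, (∀ k : ℕ, v k = fibSeq k) → (hull v).Nonempty ∧ ∀ ω ∈ hull v,
        ¬ DifferentiableAt ℝ (fun t => (dimH (spec (α t).1 (α t).2 ω)).toReal) t₀ ∧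
        ¬ AnalyticAt ℝ (fun t => (dimH (spec (α t).1 (α t).2 ω)).toReal) t₀ := by
  obtain ⟨p, hp, h | h⟩ := kink
  · refine ⟨fun t => (t, 0), 300, p + 1, p, ⟨hp, by linarith⟩, fun t _ => ?_,
      fun t ht => by have := ht.1; simp only; linarith, fun v hv => ⟨hull_nonempty v, fun ω hω => ?_⟩⟩
    · exact analyticAt_id.prod analyticAt_const
    · have e : (fun t : ℝ => (dimH (spec t 0 ω)).toReal) =ᶠ[𝓝 p] fun x => dm (KK x 0) := by
        filter_upwards [lt_mem_nhds hp] with t ht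
        exact (adm_of ht.le (by simp)).dm_spec hv hω
      have k : ¬ DifferentiableAt ℝ (fun t : ℝ => (dimH (spec t 0 ω)).toReal) p :=
        fun hd => h (e.differentiableAt_iff.1 hd)
      exact ⟨k, fun ha => k ha.differentiableAt⟩
  · refine ⟨fun t => (p, t), -1, 1, 0, ⟨by norm_num, by norm_num⟩, fun t _ => ?_,
      fun t _ => by simp only; linarith, fun v hv => ⟨hull_nonempty v, fun ω hω => ?_⟩⟩
    · exact analyticAt_const.prod analyticAt_id
    · have e : (fun t : ℝ => (dimH (spec p t ω)).toReal) =ᶠ[𝓝 0] fun t => dm (KK p t) := by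
        filter_upwards [Ioo_mem_nhds (show (-1 : ℝ) < 0 by norm_num) (show (0 : ℝ) < 1 by norm_num)]
          with t ht
        exact (adm_of hp.le (abs_le.2 ⟨ht.1.le, ht.2.le⟩)).dm_spec hv hω
      have k : ¬ DifferentiableAt ℝ (fun t : ℝ => (dimH (spec p t ω)).toReal) 0 :=
        fun hd => h (e.differentiableAt_iff.1 hd)
      exact ⟨k, fun ha => k ha.differentiableAt⟩

end Pool.Agent.Results.MP_47b204_mp.NotAnalytic
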